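import Mathlib

/-!
# Project RN (Rote, negative answer): thick words and grid certificates

A word has rows `r < R` and columns (events) `j < N`.  Column `j` carries at most one event:
* `none`;
* `real` : a terminal item hanging on row `row j`;
* `wire` : an interior item joining row `row j` and row `row j + 1`.

`lo j`, `up j` (0 or 1) are the numbers of extra agents at the lower / upper hub of the event.
-/

set_option autoImplicit false

namespace Pool.Agent.RN

inductive Kind
  | none
  | real
  | wire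
deriving DecidableEq

structure Word where
  R : ℕ
  N : ℕ
  row : ℕ → ℕ
  kind : ℕ → Kind
  lo : ℕ → ℕ
  up : ℕ → ℕ

structure Word.WF (W : Word) : Prop where
  real_lt : ∀ j, j < W.N → W.kind j = Kind.real → W.row j < W.R
  wire_lt : ∀ j, j < W.N → W.kind j = Kind.wire → W.row j + 1 < W.R
  lo_le : ∀ j, W.lo j ≤ 1
  up_le : ∀ j, W.up j ≤ 1
  exists_real : ∃ j, j < W.N ∧ W.kind j = Kind.real

/-- number of extra agents at hub `(r, j)` -/
def Word.c (W : Word) (r j : ℕ) : ℕ :=
  match W.kind j with
  | Kind.none => 0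
  | Kind.real => if r = W.row j then W.lo j else 0
  | Kind.wire => if r = W.row j then W.lo j else if r = W.row j + 1 then W.up j else 0

/-- number of legs taken by hub `(r, j)` when the bit of column `j` is `b` (0 or 1):
the lower hub takes the leg iff `b = 1`, the upper hub (of a wire) takes it iff `b = 0`. -/
def Word.take (W : Word) (b r j : ℕ) : ℕ :=
  match W.kind j with
  | Kind.none => 0
  | Kind.real => if r = W.row j then b else 0
  | Kind.wire => if r = W.row j then b else if r = W.row j + 1 then 1 - b else 0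

/-- Grid certificate.  `k s r j` = number of wires of the gap before column `j` (on row `r`) taken
by the left hub; `y s r j` = potential of hub `(r, j)` at spot `s`; `z s j` = bit of column `j`. -/
structure GC (W : Word) (m : ℕ) {S : Type} (X Y : ℕ → ℝ) (α β : S → ℝ)
    (y : S → ℕ → ℕ → ℝ) (k : S → ℕ → ℕ → ℕ) (z : S → ℕ → ℕ) : Prop where
  bit : ∀ s j, z s j ≤ 1
  start : ∀ s r, r < W.R → k s r 0 = 0
  fin : ∀ s r, r < W.R → k s r W.N = 0
  cap : ∀ s r j, r < W.R → j ≤ W.N → k s r j ≤ m
  step : ∀ s r j, r < W.R → j < W.N →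
    k s r (j + 1) + W.take (z s j) r j = k s r j + W.c r j
  mono : ∀ s s' r j, r < W.R → j + 1 < W.N →
    y s r j - y s r (j + 1) < y s' r j - y s' r (j + 1) → k s r (j + 1) ≤ k s' r (j + 1)
  wire : ∀ s j, j < W.N → W.kind j = Kind.wire → y s (W.row j) j = y s (W.row j + 1) j
  used : ∀ s j, j < W.N → W.kind j = Kind.real → z s j = 1 →
    α s * X j + β s * Y j < y s (W.row j) j
  unused : ∀ s j, j < W.N → W.kind j = Kind.real → z s j = 0 →
    y s (W.row j) j < α s * X j + β s * Y j
  sep : ∀ s s', s ≠ s' → ∃ j, j < W.N ∧ W.kind j = Kind.real ∧ z s j ≠ z s' j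

/-- the statement which is proved by recursion over the generations -/
def Claim (W : Word) (m : ℕ) (S : Type) : Prop :=
  ∀ X : ℕ → ℝ, (∀ j, 1 ≤ X j) → (∀ j, X j + 1 ≤ X (j + 1)) →
    ∃ (Y : ℕ → ℝ) (α β : S → ℝ) (y : S → ℕ → ℕ → ℝ) (k : S → ℕ → ℕ → ℕ) (z : S → ℕ → ℕ),
      GC W m X Y α β y k z

/-- the start word: one row, one real item which is always used -/
def W0 : Word where
  R := 1
  N := 1
  row := fun _ => 0
  kind := fun _ => Kind.real
  lo := fun _ => 1
  up := fun _ => 0

/-! ## The next generation -/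

section next

variable (K : ℕ) (W : Word)

/-- length of the front (and of the back) reservoir part -/
def Lf : ℕ := (2 * K + 1) * W.R * 2 ^ K

/-- block length -/
def q : ℕ := 6 * K + 1

/-- old column of a column of the block part -/
def oj (c : ℕ) : ℕ := (c - Lf K W) / q K

/-- index inside the block -/
def oi (c : ℕ) : ℕ := (c - Lf K W) % q K

/-- `c` is in the front part -/
def inF (c : ℕ) : Prop := c < Lf K W

/-- `c` is in the block part (given it is not in the front part) -/
def inB (c : ℕ) : Prop := c < Lf K W + q K * W.N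

instance (c : ℕ) : Decidable (inF K W c) := by unfold inF; infer_instance
instance (c : ℕ) : Decidable (inB K W c) := by unfold inB; infer_instance

/-- column index inside the back part -/
def bc (c : ℕ) : ℕ := c - (Lf K W + q K * W.N)

/-- kind inside a block whose old event has kind `kd` -/
def blkKind (kd : Kind) (i : ℕ) : Kind :=
  match kd with
  | Kind.none => Kind.none
  | Kind.real =>
    if i < K then Kind.real else if i < 2 * K then Kind.none
    else if i < 3 * K then Kind.wire else if i < 4 * K then Kind.none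
    else if i ≤ 5 * K then Kind.real else Kind.none
  | Kind.wire =>
    if i < 2 * K then Kind.real else if i ≤ 4 * K then Kind.wire else Kind.real

/-- row inside a block whose old event sits on row `a` -/
def blkRow (a i : ℕ) : ℕ :=
  if i < K then (2 * K + 1) * a + (2 * K - i)
  else if i < 2 * K then (2 * K + 1) * (a + 1) + (i - K)
  else if i < 3 * K then (2 * K + 1) * a + K + (i - 2 * K)
  else if i < 4 * K then (2 * K + 1) * (a + 1) + (4 * K - 1 - i)
  else if i = 4 * K then (2 * K + 1) * a + 2 * K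
  else if i ≤ 5 * K then (2 * K + 1) * a + (2 * K - (i - (4 * K + 1)))
  else (2 * K + 1) * (a + 1) + (i - (5 * K + 1))

def blkLo (lo i : ℕ) : ℕ :=
  if i < 2 * K then 1
  else if i < 3 * K then (if i = 2 * K then lo else 0)
  else if i < 4 * K then 1
  else 0

def blkUp (up i : ℕ) : ℕ :=
  if i < 2 * K then 0
  else if i < 3 * K then 1
  else if i < 4 * K then (if i = 3 * K then up else 0)
  else 0

/-- the word of the next generation -/
def next : Word where
  R := (2 * K + 1) * W.R
  N := 2 * Lf K W + q K * W.N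
  row := fun c =>
    if inF K W c then c / 2 ^ K
    else if inB K W c then blkRow K (W.row (oj K W c)) (oi K W c)
    else bc K W c / 2 ^ K
  kind := fun c =>
    if inF K W c then (if c / 2 ^ K % (2 * K + 1) = K then Kind.none else Kind.real)
    else if inB K W c then blkKind K (W.kind (oj K W c)) (oi K W c)
    else (if bc K W c / 2 ^ K % (2 * K + 1) = K then Kind.none else Kind.real)
  lo := fun c =>
    if inF K W c then 1
    else if inB K W c then blkLo K (W.lo (oj K W c)) (oi K W c)
    else 0
  up := fun c =>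
    if inF K W c then 0
    else if inB K W c then blkUp K (W.up (oj K W c)) (oi K W c)
    else 0

/-- level of the row offset `ι` (`ι < K`: bottom row of level `ι`; `ι > K`: top row of level
`2K - ι`; `ι = K`: the old row) -/
def lev (ι : ℕ) : ℕ := if ι < K then ι else 2 * K - ι

/-- digit `l` of `d` -/
def dig (d l : ℕ) : ℕ := d / 2 ^ l % 2

/-- bits of the new word; `zj` = the old bits at the old spot, `d < 2 ^ K` -/
def zN (zj : ℕ → ℕ) (d c : ℕ) : ℕ :=
  if inF K W c then
    (if 2 * (d / 2 ^ (lev K (c / 2 ^ K % (2 * K + 1)) + 1)) ≤ c % 2 ^ K then 1 else 0)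
  else if inB K W c then
    (if oi K W c < K then 1 - dig d (oi K W c)
     else if oi K W c < 2 * K then 1 - dig d (oi K W c - K)
     else if oi K W c ≤ 4 * K then zj (oj K W c)
     else if oi K W c ≤ 5 * K then dig d (oi K W c - (4 * K + 1))
     else dig d (oi K W c - (5 * K + 1)))
  else
    (if bc K W c % 2 ^ K < 2 * (d / 2 ^ (lev K (bc K W c / 2 ^ K % (2 * K + 1)) + 1))
     then 1 else 0)

/-- state inside a block on a new row of level `l`; `e`, `p1`, `p2`, `f` = positions of the four
events of this row in the block, `w` = content between `p1` and `p2` -/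
def blkState (d l w e p1 p2 f i : ℕ) : ℕ :=
  if i ≤ e then 2 * (d / 2 ^ (l + 1))
  else if i ≤ p1 then d / 2 ^ l
  else if i ≤ p2 then d / 2 ^ l + w
  else if i ≤ f then d / 2 ^ l
  else 2 * (d / 2 ^ (l + 1))

/-- position of the outer wire of the top row of level `l` inside a block -/
def pout (l : ℕ) : ℕ := if l = 0 then 4 * K else 3 * K - l

/-- states of the new word (`kk` = old states, `zj` = old bits) -/
def kN (kk : ℕ → ℕ → ℕ) (zj : ℕ → ℕ) (d r c : ℕ) : ℕ :=
  if r % (2 * K + 1) = K then
    (if inF K W c then 0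
     else if inB K W c then
       (if oi K W c ≤ (if W.row (oj K W c) = r / (2 * K + 1) then 2 * K else 3 * K)
        then kk (r / (2 * K + 1)) (oj K W c) else kk (r / (2 * K + 1)) (oj K W c + 1))
     else 0)
  else
    (if inF K W c then
       min (c - r * 2 ^ K) (2 * (d / 2 ^ (lev K (r % (2 * K + 1)) + 1)))
     else if inB K W c then
       (if K < r % (2 * K + 1) then
          (if W.kind (oj K W c) ≠ Kind.none ∧ W.row (oj K W c) = r / (2 * K + 1) then
            blkState d (lev K (r % (2 * K + 1))) (zj (oj K W c))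
              (lev K (r % (2 * K + 1))) (3 * K - 1 - lev K (r % (2 * K + 1)))
              (pout K (lev K (r % (2 * K + 1)))) (4 * K + 1 + lev K (r % (2 * K + 1)))
              (oi K W c)
           else 2 * (d / 2 ^ (lev K (r % (2 * K + 1)) + 1)))
        else
          (if W.kind (oj K W c) = Kind.wire ∧ W.row (oj K W c) + 1 = r / (2 * K + 1) then
            blkState d (lev K (r % (2 * K + 1))) (1 - zj (oj K W c))
              (K + lev K (r % (2 * K + 1))) (4 * K - 1 - lev K (r % (2 * K + 1)))
              (4 * K - lev K (r % (2 * K + 1))) (5 * K + 1 + lev K (r % (2 * K + 1)))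
              (oi K W c)
           else 2 * (d / 2 ^ (lev K (r % (2 * K + 1)) + 1))))
     else
       2 * (d / 2 ^ (lev K (r % (2 * K + 1)) + 1)) - (bc K W c - r * 2 ^ K))

/-- second coordinates of the new columns; `Bg`, `η` = parameters, `Yo` = old second coordinates -/
noncomputable def YN (Yo : ℕ → ℝ) (Bg : ℝ) (η : ℕ → ℝ) (c : ℕ) : ℝ :=
  if inF K W c then 0
  else if inB K W c then
    (if oi K W c < K then -(Bg / η (oi K W c))
     else if oi K W c < 2 * K then -(Bg / η (oi K W c - K))
     else if oi K W c < 4 * K then 0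
     else if oi K W c = 4 * K then Yo (oj K W c)
     else if oi K W c ≤ 5 * K then Bg / η (oi K W c - (4 * K + 1))
     else Bg / η (oi K W c - (5 * K + 1)))
  else 0

/-- is the second coordinate of column `c` (of the block part) visible at level `l`?
(terminals born at a level `< l`, or old) -/
def vis (l i : ℕ) : Prop :=
  i = 4 * K ∨ (i < K ∧ i < l) ∨ (K ≤ i ∧ i < 2 * K ∧ i - K < l) ∨
    (4 * K < i ∧ i ≤ 5 * K ∧ i - (4 * K + 1) < l) ∨ (5 * K < i ∧ i - (5 * K + 1) < l)

instance (l i : ℕ) : Decidable (vis K l i) := by unfold vis; infer_instance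

/-- height function of level `l` -/
noncomputable def HN (X Yo : ℕ → ℝ) (Bg : ℝ) (η : ℕ → ℝ) (l c : ℕ) : ℝ :=
  X c + (if ¬ inF K W c ∧ inB K W c ∧ vis K l (oi K W c) then η l * YN K W Yo Bg η c else 0)

/-- position function of level `l` on a new row with offset `ι ≠ K` at a column of the block part -/
noncomputable def posN (X Yo : ℕ → ℝ) (Bg : ℝ) (η : ℕ → ℝ) (l ι c : ℕ) : ℝ :=
  if l < lev K ι then 0
  else if lev K ι < l then HN K W X Yo Bg η l c
  else if oi K W c < (if K < ι then pout K (lev K ι) else 4 * K - lev K ι) then 0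
  else HN K W X Yo Bg η l c

/-- sign of digit `l` -/
noncomputable def sg (d l : ℕ) : ℝ := 1 - 2 * (dig d l : ℝ)

/-- new first spot coordinate -/
noncomputable def αN (αo T : ℝ) (d : ℕ) : ℝ :=
  αo + ∑ l ∈ Finset.range K, sg d l * T ^ (l + 1)

/-- new second spot coordinate -/
noncomputable def βN (βo T : ℝ) (η : ℕ → ℝ) (d : ℕ) : ℝ :=
  βo + ∑ l ∈ Finset.range K, sg d l * T ^ (l + 1) * η l

/-- new potentials (`yo` = old potentials at the old spot, `αo` = old first spot coordinate) -/
noncomputable def yN (X Yo : ℕ → ℝ) (Bg : ℝ) (η : ℕ → ℝ) (T αo : ℝ) (yo : ℕ → ℕ → ℝ)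
    (d r c : ℕ) : ℝ :=
  if ¬ inF K W c ∧ inB K W c then
    (if r % (2 * K + 1) = K then yo (r / (2 * K + 1)) (oj K W c)
     else yo (r / (2 * K + 1)) (oj K W c) +
       ∑ l ∈ Finset.range K, sg d l * T ^ (l + 1) * posN K W X Yo Bg η l (r % (2 * K + 1)) c)
  else
    αN K αo T d * X c + (if zN K W (fun _ => 0) d c = 1 then 1 else -1)

/-- the old column `j` sits at the column `mainc j` of the new word -/
def mainc (j : ℕ) : ℕ := Lf K W + q K * j + 4 * K

end next

/-- the words of all generations -/
def gen (K : ℕ) : ℕ → Word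
  | 0 => W0
  | g + 1 => next K (gen K g)

/-! ## Statements of the modules -/

abbrev E2 := EuclideanSpace ℝ (Fin 2)

/-- the set of the frozen statement -/
def Sopt (m n : ℕ) (A : Fin m → E2) (B : Fin n → E2) : Set (Fin m ↪ Fin n) :=
  {π : Fin m ↪ Fin n | ∃ t : EuclideanSpace ℝ (Fin 2),
    ∀ σ : Fin m ↪ Fin n, σ ≠ π →
      ∑ i, ‖A i - (B (π i) + t)‖ ^ 2 < ∑ i, ‖A i - (B (σ i) + t)‖ ^ 2}

/-- MODULE NEXT -/
def NextStatement : Prop :=
  ∀ (K : ℕ) (W : Word) (m : ℕ) (S : Type) [Finite S], 1 ≤ K → 2 ^ K ≤ m → W.WF →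
    Claim W m S → (next K W).WF ∧ Claim (next K W) m (S × Fin (2 ^ K))

/-- MODULE GEOM -/
def GeomStatement : Prop :=
  ∀ (W : Word) (m : ℕ) (S : Type) [Finite S], 1 ≤ m → W.WF → Claim W m S →
    ∃ (p n : ℕ) (A : Fin p → E2) (B : Fin n → E2),
      p ≤ n ∧ n ≤ 30 * W.R ^ 2 * W.N * m ∧ Nat.card S ≤ (Sopt p n A B).ncard

/-- MODULE FINAL -/
def FrozenNeg : Prop :=
    ¬ (∃ C : ℝ, ∃ d₁ d₂ : ℕ, ∀ m n : ℕ, m ≤ n →
      ∀ (A : Fin m → EuclideanSpace ℝ (Fin 2)) (B : Fin n → EuclideanSpace ℝ (Fin 2)),
        ((({π : Fin m ↪ Fin n | ∃ t : EuclideanSpace ℝ (Fin 2),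
            ∀ σ : Fin m ↪ Fin n, σ ≠ π →
              ∑ i, ‖A i - (B (π i) + t)‖ ^ 2 < ∑ i, ‖A i - (B (σ i) + t)‖ ^ 2}
            : Set (Fin m ↪ Fin n)).ncard : ℕ) : ℝ)
          ≤ C * ((m : ℝ) + 1) ^ d₁ * ((n : ℝ) + 1) ^ d₂)

end Pool.Agent.RN
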