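import Pool.Agent.H81.RN.GeomInst
import Pool.Agent.H73.RN.Count

/-! Plan D of project RN: the final theorem. -/

set_option autoImplicit false

namespace Pool.Agent.RN

theorem frozenNeg : FrozenNeg :=
  final_of_claims fun C d => H73RN.exists_words 30 C (by norm_num) d

end Pool.Agent.RN
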