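import Pool.Agent.H81.RN.Defs
import Pool.Agent.H60.RNB.Real
import Pool.Agent.H50.RNC.Geo

/-! Plan D of project RN: a grid certificate (`Claim`) gives a price instance
(through `RNB.realise` of helper60 and the drawing `H50.RNC.F` of helper50). -/

set_option autoImplicit false

namespace Pool.Agent.RN

open Finset Pool.H50.RNC

namespace Geom

/-- horizontal distance of two columns -/
def L (W : Word) : ℕ := 2 * (W.R + 2)

lemma L_pos (W : Word) : 0 < L W := by unfold L; omega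

/-- hubs -/
abbrev V (W : Word) : Type := Fin (L W * W.N) × Fin W.R

/-- edges: `false` = to the right, `true` = upwards (cyclic at the border, multiplicity 0) -/
abbrev E (W : Word) : Type := V W × Bool

/-- leaves -/
abbrev G (W : Word) : Type := {j : Fin W.N // W.kind j = Kind.real}

variable (W : Word) [NeZero W.N] [NeZero W.R]

instance : NeZero (L W * W.N) :=
  ⟨Nat.mul_ne_zero (L_pos W).ne' (NeZero.ne W.N)⟩

def head (e : E W) : V W := bif e.2 then (e.1.1, e.1.2 + 1) else (e.1.1 + 1, e.1.2)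

/-- there is a wire from row `y` upwards at `x` -/
def IsW (x y : ℕ) : Prop := L W ∣ x ∧ W.kind (x / L W) = Kind.wire ∧ W.row (x / L W) = y

instance (x y : ℕ) : Decidable (IsW W x y) := by unfold IsW; infer_instance

def mult (m : ℕ) (e : E W) : ℕ :=
  if e.2 = true then (if IsW W e.1.1 e.1.2 then 1 else 0)
  else (if (e.1.1 : ℕ) < L W * (W.N - 1) then m else 0)

/-! ### `Fin` arithmetic -/

lemma fin_succ {n : ℕ} [NeZero n] (i : Fin n) (h : (i : ℕ) + 1 < n) :
    ((i + 1 : Fin n) : ℕ) = (i : ℕ) + 1 := Fin.val_add_one_of_lt' h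

lemma fin_pred {n : ℕ} [NeZero n] (i : Fin n) (h : 1 ≤ (i : ℕ)) :
    ((i - 1 : Fin n) : ℕ) = (i : ℕ) - 1 := by
  have hi := i.isLt
  have h1 : (⟨(i : ℕ) - 1, by omega⟩ : Fin n) + 1 = i := by
    apply Fin.ext
    rw [fin_succ _ (by simp only; omega)]
    simp only; omega
  have h2 : i - 1 = ⟨(i : ℕ) - 1, by omega⟩ := by
    rw [sub_eq_iff_eq_add]; exact h1.symm
  rw [h2]

lemma fin_pred_zero {n : ℕ} [NeZero n] (i : Fin n) (h : (i : ℕ) = 0) :
    ((i - 1 : Fin n) : ℕ) + 1 = n := by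
  by_contra hc
  have h0 := (i - 1).isLt
  have h1 := fin_succ (i - 1) (by omega)
  rw [sub_add_cancel] at h1
  omega

lemma tail_filter (v : V W) :
    (univ.filter fun e : E W => e.1 = v) = {(v, false), (v, true)} := by
  ext ⟨w, b⟩
  simp only [mem_filter, mem_univ, true_and, mem_insert, mem_singleton, Prod.mk.injEq]
  cases b <;> simp

lemma head_filter (v : V W) :
    (univ.filter fun e : E W => head W e = v) =
      {((v.1 - 1, v.2), false), ((v.1, v.2 - 1), true)} := by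
  ext ⟨⟨i, y⟩, b⟩
  simp only [mem_filter, mem_univ, true_and, mem_insert, mem_singleton, Prod.mk.injEq, head]
  obtain ⟨v1, v2⟩ := v
  cases b
  · simp only [cond_false, Prod.mk.injEq, and_true, Bool.false_eq_true, and_false, or_false]
    rw [eq_sub_iff_add_eq]
  · simp only [cond_true, Prod.mk.injEq, and_true, reduceCtorEq, and_false, false_or]
    rw [eq_sub_iff_add_eq]

/-! ### positions -/

/-- offset of the rows at column `k` -/
def rho (k : ℤ) : ℤ :=
  if 0 ≤ k ∧ k < W.N ∧ W.kind k.toNat = Kind.real then (W.row k.toNat : ℤ) else 0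

/-- leaf gap at column `k` -/
def gp (k : ℤ) : ℤ :=
  if 0 ≤ k ∧ k < W.N ∧ W.kind k.toNat = Kind.real then (W.row k.toNat : ℤ) else (W.R : ℤ)

lemma rho_range (hW : W.WF) (k : ℤ) : 0 ≤ rho W k ∧ rho W k < W.R := by
  unfold rho
  have hR : 0 < W.R := Nat.pos_of_ne_zero (NeZero.ne W.R)
  split_ifs with h
  · have := hW.real_lt k.toNat (by omega) h.2.2
    omega
  · omega

lemma ok (hW : W.WF) : Ok (L W : ℤ) (rho W) where
  pos := by exact_mod_cast L_pos W
  slope := by
    intro k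
    have h1 := rho_range W hW k
    have h2 := rho_range W hW (k + 1)
    have h3 : |rho W (k + 1) - rho W k| ≤ W.R := abs_le.2 ⟨by omega, by omega⟩
    unfold L
    push_cast
    omega

/-- height of the hub `(x, y)` -/
noncomputable def ht (x y : ℤ) : ℝ := F (L W) (rho W) (gp W) x y

noncomputable def P (v : V W) : RNB.E2 := !₂[((v.1 : ℕ) : ℝ), ht W (v.1 : ℕ) (v.2 : ℕ)]

/-- position of a leaf; `e j` = small vertical shift -/
noncomputable def bpos (e : ℕ → ℝ) (g : G W) : RNB.E2 :=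
  !₂[(L W : ℝ) * ((g.1 : ℕ) : ℝ), 1 + e g.1]

lemma tip_lt1 {j : ℕ} (hj : j < W.N) : L W * j < L W * W.N :=
  Nat.mul_lt_mul_of_pos_left hj (L_pos W)

/-- the hub of a leaf -/
def tip (hW : W.WF) (g : G W) : V W :=
  (⟨L W * (g.1 : ℕ), tip_lt1 W g.1.isLt⟩, ⟨W.row g.1, hW.real_lt _ g.1.isLt g.2⟩)

theorem norm_sq_pt (a b c d : ℝ) :
    ‖(!₂[a, b] : RNB.E2) - !₂[c, d]‖ ^ 2 = (a - c) ^ 2 + (b - d) ^ 2 := by
  rw [EuclideanSpace.norm_sq_eq, Fin.sum_univ_two]
  simp

theorem norm_sq_mid (a b c d e f : ℝ) :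
    ‖(!₂[a, b] : RNB.E2) - midpoint ℝ !₂[c, d] !₂[e, f]‖ ^ 2 =
      (a - (c + e) / 2) ^ 2 + (b - (d + f) / 2) ^ 2 := by
  rw [midpoint_eq_smul_add]
  have h4 : (⅟2 : ℝ) = 1 / 2 := by norm_num
  rw [h4, EuclideanSpace.norm_sq_eq, Fin.sum_univ_two]
  simp
  ring

lemma hub_ne (v w : V W) (h : v ≠ w) :
    ¬ (((v.1 : ℕ) : ℤ) = ((w.1 : ℕ) : ℤ) ∧ ((v.2 : ℕ) : ℤ) = ((w.2 : ℕ) : ℤ)) := by
  rintro ⟨h1, h2⟩
  exact h (Prod.ext (Fin.ext (by exact_mod_cast h1)) (Fin.ext (by exact_mod_cast h2)))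

/-- vertical edges have length one -/
lemma vert_len (hW : W.WF) {x y : ℕ} (hx : x < L W * W.N) (hy : y + 1 < W.R) (h : IsW W x y) :
    ht W x ((y : ℤ) + 1) = ht W x y + 1 := by
  obtain ⟨⟨k, hk⟩, hkd, -⟩ := h
  subst hk
  have hk2 : k < W.N := Nat.lt_of_mul_lt_mul_left hx
  rw [Nat.mul_div_cancel_left _ (L_pos W)] at hkd
  unfold ht
  have hne : (y : ℤ) ≠ gp W k := by
    have : gp W k = W.R := by
      unfold gp
      rw [if_neg]
      rintro ⟨-, -, h3⟩
      rw [Int.toNat_natCast, hkd] at h3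
      cases h3
    rw [this]; omega
  have := F_vert (ok W hW) (gp W) (k : ℤ) (y : ℤ) hne
  push_cast
  exact this

lemma mult_h (m : ℕ) (v : V W) :
    mult W m (v, false) = if (v.1 : ℕ) < L W * (W.N - 1) then m else 0 := by
  simp [mult]

lemma mult_v (m : ℕ) (v : V W) :
    mult W m (v, true) = if IsW W v.1 v.2 then 1 else 0 := by
  simp [mult]

lemma LN_eq : L W * (W.N - 1) + L W = L W * W.N := by
  have hN : 0 < W.N := Nat.pos_of_ne_zero (NeZero.ne W.N)
  obtain ⟨n, hn⟩ : ∃ n, W.N = n + 1 := ⟨W.N - 1, by omega⟩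
  rw [hn, Nat.add_sub_cancel]; ring

lemma head_h {v : V W} (h : (v.1 : ℕ) < L W * (W.N - 1)) :
    ((head W (v, false)).1 : ℕ) = (v.1 : ℕ) + 1 ∧ (head W (v, false)).2 = v.2 := by
  constructor
  · have := LN_eq W
    have hL := L_pos W
    exact fin_succ v.1 (by omega)
  · rfl

lemma isW_lt (hW : W.WF) {x y : ℕ} (hx : x < L W * W.N) (h : IsW W x y) : y + 1 < W.R := by
  obtain ⟨-, hkd, hr⟩ := h
  have := hW.wire_lt _ (Nat.div_lt_of_lt_mul hx) hkd
  omega

lemma head_v (hW : W.WF) {v : V W} (h : IsW W v.1 v.2) :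
    (head W (v, true)).1 = v.1 ∧ ((head W (v, true)).2 : ℕ) = (v.2 : ℕ) + 1 :=
  ⟨rfl, fin_succ v.2 (isW_lt W hW v.1.isLt h)⟩

theorem drawn (hW : W.WF) (m : ℕ) (e : ℕ → ℝ) (he0 : ∀ j, j < W.N → 0 ≤ e j)
    (he1 : ∀ j, j < W.N → e j ≤ 1 / 100) :
    RNB.Drawn (fun e : E W => e.1) (head W) (tip W hW) (bpos W e) (mult W m) (P W) where
  len_ge := by
    rintro ⟨v, b⟩ hm
    cases b
    · rw [mult_h] at hm
      split_ifs at hm with h
      · have hh := head_h W h
        have h4 := abs_le.1 (F_step_abs (ok W hW) (gp W) (v.1 : ℕ) (v.2 : ℕ))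
        unfold P
        rw [norm_sq_pt, hh.1, hh.2]
        unfold ht
        push_cast
        nlinarith [h4.1, h4.2]
      · omega
    · rw [mult_v] at hm
      split_ifs at hm with h
      · have hh := head_v W hW h
        have hv := vert_len W hW v.1.isLt (isW_lt W hW v.1.isLt h) h
        unfold P
        rw [norm_sq_pt, hh.1, hh.2]
        push_cast
        rw [hv]
        nlinarith
      · omega
  len_le := by
    rintro ⟨v, b⟩ hm
    cases b
    · rw [mult_h] at hm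
      split_ifs at hm with h
      · have hh := head_h W h
        have h4 := abs_le.1 (F_step_abs (ok W hW) (gp W) (v.1 : ℕ) (v.2 : ℕ))
        unfold P
        rw [norm_sq_pt, hh.1, hh.2]
        unfold ht
        push_cast
        nlinarith [h4.1, h4.2]
      · omega
    · rw [mult_v] at hm
      split_ifs at hm with h
      · have hh := head_v W hW h
        have hv := vert_len W hW v.1.isLt (isW_lt W hW v.1.isLt h) h
        unfold P
        rw [norm_sq_pt, hh.1, hh.2]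
        push_cast
        rw [hv]
        nlinarith
      · omega
  gap := by
    rintro ⟨w, b⟩ v hm h1 h2
    cases b
    · rw [mult_h] at hm
      split_ifs at hm with h
      · have hh := head_h W h
        have n1 := hub_ne W _ _ h1
        have n2 := hub_ne W _ _ h2
        rw [hh.1, hh.2] at n2
        push_cast at n1 n2
        have h4 := gabriel_h (ok W hW) (gp W) (w.1 : ℕ) (w.2 : ℕ) (v.1 : ℕ) (v.2 : ℕ) n1 n2
        unfold P
        rw [norm_sq_pt, norm_sq_mid, hh.1, hh.2]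
        unfold ht
        push_cast at h4 ⊢
        refine le_trans (le_of_eq ?_) (h4.trans (le_of_eq ?_)) <;> ring
      · omega
    · rw [mult_v] at hm
      split_ifs at hm with h
      · have hh := head_v W hW h
        have hv := vert_len W hW w.1.isLt (isW_lt W hW w.1.isLt h) h
        have n1 := hub_ne W _ _ h1
        have n2 := hub_ne W _ _ h2
        rw [hh.1, hh.2] at n2
        push_cast at n1 n2
        have h4 := gabriel_v (ok W hW) (gp W) (w.1 : ℕ) (w.2 : ℕ) (v.1 : ℕ) (v.2 : ℕ) hv n1 n2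
        unfold P
        rw [norm_sq_pt, norm_sq_mid, hh.1, hh.2]
        have hv' : ht W (w.1 : ℕ) (((w.2 : ℕ) : ℤ) + 1) = ht W (w.1 : ℕ) (w.2 : ℕ) + 1 := hv
        push_cast at h4 ⊢
        unfold ht at hv' ⊢
        rw [hv'] at h4 ⊢
        refine le_trans (le_of_eq ?_) (h4.trans (le_of_eq ?_)) <;> ring
      · omega
  leaf_gap := by
    rintro ⟨j, hj⟩ v hv
    have n1 := hub_ne W _ _ hv
    simp only [tip] at n1
    push_cast at n1
    have hc : (0 : ℤ) ≤ ((j : ℕ) : ℤ) ∧ ((j : ℕ) : ℤ) < W.N ∧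
        W.kind ((j : ℕ) : ℤ).toNat = Kind.real :=
      ⟨by omega, by exact_mod_cast j.isLt, by rw [Int.toNat_natCast]; exact hj⟩
    have h1 : rho W ((j : ℕ) : ℤ) = (W.row j : ℤ) := by
      unfold rho; rw [if_pos hc, Int.toNat_natCast]
    have h2 : gp W ((j : ℕ) : ℤ) = (W.row j : ℤ) := by
      unfold gp; rw [if_pos hc, Int.toNat_natCast]
    have h3 := leaf_up (ok W hW) (gp W) ((j : ℕ) : ℤ) (W.row j) (v.1 : ℕ) (v.2 : ℕ) h1 h2 (e j)
      (he0 j j.isLt) (by have := he1 j j.isLt; linarith) n1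
    unfold P bpos
    rw [norm_sq_pt]
    unfold ht
    push_cast at h3 ⊢
    exact h3
  leaf_ge := by
    rintro ⟨j, hj⟩
    have hc : (0 : ℤ) ≤ ((j : ℕ) : ℤ) ∧ ((j : ℕ) : ℤ) < W.N ∧
        W.kind ((j : ℕ) : ℤ).toNat = Kind.real :=
      ⟨by omega, by exact_mod_cast j.isLt, by rw [Int.toNat_natCast]; exact hj⟩
    have h1 : ht W ((L W * (j : ℕ) : ℕ) : ℤ) ((W.row j : ℕ) : ℤ) = 0 := by
      unfold ht
      push_cast
      rw [F_mul _ (ok W hW).pos]
      unfold rho gp hgt
      rw [if_pos hc, if_pos hc, Int.toNat_natCast]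
      simp
    unfold P bpos tip
    rw [norm_sq_pt]
    simp only
    rw [h1]
    have h2 := he0 j j.isLt
    have h3 := he1 j j.isLt
    push_cast
    nlinarith
  leaf_le := by
    rintro ⟨j, hj⟩
    have hc : (0 : ℤ) ≤ ((j : ℕ) : ℤ) ∧ ((j : ℕ) : ℤ) < W.N ∧
        W.kind ((j : ℕ) : ℤ).toNat = Kind.real :=
      ⟨by omega, by exact_mod_cast j.isLt, by rw [Int.toNat_natCast]; exact hj⟩
    have h1 : ht W ((L W * (j : ℕ) : ℕ) : ℤ) ((W.row j : ℕ) : ℤ) = 0 := by
      unfold ht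
      push_cast
      rw [F_mul _ (ok W hW).pos]
      unfold rho gp hgt
      rw [if_pos hc, if_pos hc, Int.toNat_natCast]
      simp
    unfold P bpos tip
    rw [norm_sq_pt]
    simp only
    rw [h1]
    have h2 := he0 j j.isLt
    have h3 := he1 j j.isLt
    push_cast
    nlinarith
  tip_inj := by
    rintro ⟨j, hj⟩ ⟨j', hj'⟩ h
    have h1 : L W * (j : ℕ) = L W * (j' : ℕ) := congrArg (fun v : V W => (v.1 : ℕ)) h
    have h2 : (j : ℕ) = (j' : ℕ) := Nat.eq_of_mul_eq_mul_left (L_pos W) h1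
    exact Subtype.ext (Fin.ext h2)

end Geom

end Pool.Agent.RN
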