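import Pool.Agent.H81.RN.Spot

/-! Plan D of project RN: a `Claim` gives a price instance of polynomial size; final assembly. -/

set_option autoImplicit false

namespace Pool.Agent.RN

open Finset

theorem geomInst (W : Word) (m : ℕ) (S : Type) [Fintype S] [Nonempty S] (hm : 1 ≤ m)
    (hW : W.WF) (hc : Claim W m S) :
    ∃ (ι κ : Type) (_ : Fintype ι) (_ : Fintype κ), Nonempty (H87RN.Inst ι κ S) ∧
      Fintype.card ι ≤ Fintype.card κ ∧ Fintype.card κ ≤ 30 * W.R ^ 2 * W.N * m := by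
  classical
  obtain ⟨j0, hj0, hk0⟩ := hW.exists_real
  have hN : 0 < W.N := by omega
  have hR : 0 < W.R := by have := hW.real_lt j0 hj0 hk0; omega
  have : NeZero W.N := ⟨hN.ne'⟩
  have : NeZero W.R := ⟨hR.ne'⟩
  have hL : (1 : ℝ) ≤ (Geom.L W : ℝ) := by exact_mod_cast Geom.L_pos W
  have hX1 : ∀ j : ℕ, (1 : ℝ) ≤ (Geom.L W : ℝ) * j + 1 := by
    intro j
    have : (0 : ℝ) ≤ (Geom.L W : ℝ) * j := by positivity
    linarith
  have hX2 : ∀ j : ℕ, (Geom.L W : ℝ) * j + 1 + 1 ≤ (Geom.L W : ℝ) * ((j + 1 : ℕ) : ℝ) + 1 := by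
    intro j
    push_cast
    linarith
  obtain ⟨Y, α, β, y, k, z, gc⟩ := hc (fun j : ℕ => (Geom.L W : ℝ) * j + 1) hX1 hX2
  set Ym : ℝ := ∑ j ∈ range W.N, |Y j| with hYm
  have hY : ∀ j, j < W.N → |Y j| ≤ Ym := fun j hj =>
    single_le_sum (f := fun j => |Y j|) (fun i _ => abs_nonneg _) (mem_range.2 hj)
  have hYm0 : 0 ≤ Ym := sum_nonneg fun i _ => abs_nonneg _
  set ρ : ℝ := 1 / (200 * (Ym + 1)) with hρ
  have hρ0 : 0 < ρ := by positivity
  have hρ1 : ρ * (Ym + 1) = 1 / 200 := by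
    rw [hρ]; field_simp
  have he0 : ∀ j, j < W.N → 0 ≤ ρ * (Y j + Ym) := by
    intro j hj
    have := neg_abs_le (Y j)
    have := hY j hj
    exact mul_nonneg hρ0.le (by linarith)
  have he1 : ∀ j, j < W.N → ρ * (Y j + Ym) ≤ 1 / 100 := by
    intro j hj
    have h1 := le_abs_self (Y j)
    have h2 := hY j hj
    have h3 : ρ * (Y j + Ym) ≤ ρ * (2 * (Ym + 1)) := mul_le_mul_of_nonneg_left (by linarith) hρ0.le
    nlinarith
  have dr := Geom.drawn W hW m (fun j => ρ * (Y j + Ym)) he0 he1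
  have sd := Geom.spotData W hW m _ Y α β y k z (fun j => rfl) gc ρ Ym hρ0
  obtain ⟨h1, h2⟩ := RNB.realise (Geom.P W) dr sd
  refine ⟨_, _, _, _, h1, h2, ?_⟩
  rw [Fintype.card_sum, Fintype.card_sigma]
  have hmult : ∀ e : Geom.E W, Fintype.card (Fin (Geom.mult W m e)) ≤ m := by
    intro e
    rw [Fintype.card_fin]
    unfold Geom.mult
    split_ifs <;> omega
  have h3 : ∑ e : Geom.E W, Fintype.card (Fin (Geom.mult W m e)) ≤
      (Geom.L W * W.N * W.R * 2) * m := by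
    refine (sum_le_sum fun e _ => hmult e).trans ?_
    rw [sum_const, card_univ, smul_eq_mul, Fintype.card_prod, Fintype.card_prod, Fintype.card_fin,
      Fintype.card_fin, Fintype.card_bool]
  have h4 : Fintype.card (Geom.G W) ≤ W.N := by
    have := Fintype.card_subtype_le (fun j : Fin W.N => W.kind j = Kind.real)
    rwa [Fintype.card_fin] at this
  have h5 : Geom.L W ≤ 6 * W.R := by unfold Geom.L; omega
  have h6 : (Geom.L W * W.N * W.R * 2) * m ≤ (6 * W.R * W.N * W.R * 2) * m := by gcongr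
  have h7 : W.N ≤ W.R ^ 2 * W.N * m := by
    have : 1 ≤ W.R ^ 2 * m := Nat.mul_pos (by positivity) hm
    nlinarith
  calc _ ≤ (6 * W.R * W.N * W.R * 2) * m + W.R ^ 2 * W.N * m := by omega
    _ = 13 * (W.R ^ 2 * W.N * m) := by ring
    _ ≤ 30 * (W.R ^ 2 * W.N * m) := by omega
    _ = _ := by ring

/-- assembly: the combinatorial statement of helper73 gives the negation of the polynomial bound -/
theorem final_of_claims (H : ∀ (C : ℝ) (d : ℕ), ∃ (W : Word) (m D : ℕ), W.WF ∧ 1 ≤ m ∧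
      Claim W m (Fin D → Bool) ∧
      C * (30 * (W.R : ℝ) ^ 2 * W.N * m + 1) ^ d < 2 ^ D) : FrozenNeg := by
  refine H87RN.not_poly_of_inst fun C d => ?_
  obtain ⟨W, m, D, hW, hm, hc, hlt⟩ := H (max C 0) d
  obtain ⟨ι, κ, i1, i2, h1, h2, h3⟩ := geomInst W m (Fin D → Bool) hm hW hc
  refine ⟨ι, κ, Fin D → Bool, i1, i2, inferInstance, h1, h2, ?_⟩
  have h4 : (Fintype.card κ : ℝ) ≤ 30 * (W.R : ℝ) ^ 2 * W.N * m := by exact_mod_cast h3
  have h5 : ((Fintype.card κ : ℝ) + 1) ^ d ≤ (30 * (W.R : ℝ) ^ 2 * W.N * m + 1) ^ d :=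
    pow_le_pow_left₀ (by positivity) (by linarith) d
  have h6 : C * ((Fintype.card κ : ℝ) + 1) ^ d ≤
      max C 0 * (30 * (W.R : ℝ) ^ 2 * W.N * m + 1) ^ d :=
    mul_le_mul (le_max_left _ _) h5 (by positivity) (le_max_right _ _)
  refine lt_of_le_of_lt h6 (lt_of_lt_of_eq hlt ?_)
  simp

end Pool.Agent.RN
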