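import Pool.Agent.H81.RN.Geom

/-! Plan D of project RN: `SpotData` from a grid certificate. -/

set_option autoImplicit false

namespace Pool.Agent.RN

open Finset Pool.H50.RNC

namespace Geom

variable (W : Word) [NeZero W.N] [NeZero W.R]

/-- column index of the potential at `x` -/
def cj (x : ℕ) : ℕ := (x + (L W - 1)) / L W

/-- number of copies taken by the tail -/
def kk (k : ℕ → ℕ → ℕ) (z : ℕ → ℕ) (e : E W) : ℕ :=
  if e.2 = true then (if IsW W e.1.1 e.1.2 then z ((e.1.1 : ℕ) / L W) else 0)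
  else (if (e.1.1 : ℕ) < L W * (W.N - 1) then k (e.1.2 : ℕ) ((e.1.1 : ℕ) / L W + 1) else 0)

/-- number of agents at a hub -/
def rr (m : ℕ) (v : V W) : ℕ :=
  (if 0 < (v.1 : ℕ) ∧ (v.1 : ℕ) ≤ L W * (W.N - 1) then m else 0) +
    (if L W ∣ (v.1 : ℕ) then W.c (v.2 : ℕ) ((v.1 : ℕ) / L W) else 0)

lemma kk_h (k : ℕ → ℕ → ℕ) (z : ℕ → ℕ) (v : V W) :
    kk W k z (v, false) =
      if (v.1 : ℕ) < L W * (W.N - 1) then k (v.2 : ℕ) ((v.1 : ℕ) / L W + 1) else 0 := by
  simp [kk]

lemma kk_v (k : ℕ → ℕ → ℕ) (z : ℕ → ℕ) (v : V W) :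
    kk W k z (v, true) = if IsW W v.1 v.2 then z ((v.1 : ℕ) / L W) else 0 := by
  simp [kk]

lemma N_pos : 0 < W.N := Nat.pos_of_ne_zero (NeZero.ne W.N)

lemma R_pos : 0 < W.R := Nat.pos_of_ne_zero (NeZero.ne W.R)

/-- conservation at a column hub, in numbers -/
lemma cons_aux (m : ℕ) (k : ℕ → ℕ → ℕ) (z : ℕ → ℕ) (hW : W.WF) (hz : ∀ j, z j ≤ 1)
    (hs : ∀ r, r < W.R → k r 0 = 0) (hf : ∀ r, r < W.R → k r W.N = 0)
    (hcap : ∀ r j, r < W.R → j ≤ W.N → k r j ≤ m)
    (hstep : ∀ r j, r < W.R → j < W.N → k r (j + 1) + W.take (z j) r j = k r j + W.c r j)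
    (v : V W) :
    (kk W k z (v, false) + kk W k z (v, true))
      + ((mult W m ((v.1 - 1, v.2), false) - kk W k z ((v.1 - 1, v.2), false))
        + (mult W m ((v.1, v.2 - 1), true) - kk W k z ((v.1, v.2 - 1), true)))
      + (if L W ∣ (v.1 : ℕ) ∧ W.kind ((v.1 : ℕ) / L W) = Kind.real ∧
          W.row ((v.1 : ℕ) / L W) = (v.2 : ℕ) ∧ z ((v.1 : ℕ) / L W) = 1 then 1 else 0)
      = rr W m v := by
  obtain ⟨x, y⟩ := v
  have hL := L_pos W
  have hN := N_pos W
  have hR := R_pos W
  have hx := x.isLt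
  have hy := y.isLt
  have hLN := LN_eq W
  rw [kk_h, kk_v, kk_h, kk_v, mult_h, mult_v]
  simp only
  -- the vertical edge below
  have hbelow : IsW W x (((y - 1 : Fin W.R)) : ℕ) ↔
      L W ∣ (x : ℕ) ∧ W.kind ((x : ℕ) / L W) = Kind.wire ∧ (y : ℕ) = W.row ((x : ℕ) / L W) + 1 := by
    unfold IsW
    constructor
    · rintro ⟨h1, h2, h3⟩
      refine ⟨h1, h2, ?_⟩
      have h4 := hW.wire_lt _ (Nat.div_lt_of_lt_mul hx) h2
      by_cases h5 : 1 ≤ (y : ℕ)
      · rw [fin_pred y h5] at h3; omega
      · have := fin_pred_zero y (by omega); omega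
    · rintro ⟨h1, h2, h3⟩
      refine ⟨h1, h2, ?_⟩
      rw [fin_pred y (by omega)]; omega
  simp only [hbelow]
  -- the horizontal edge on the left
  have hleft : ((if (((x - 1 : Fin (L W * W.N))) : ℕ) < L W * (W.N - 1) then m else 0) -
      (if (((x - 1 : Fin (L W * W.N))) : ℕ) < L W * (W.N - 1) then
        k (y : ℕ) ((((x - 1 : Fin (L W * W.N))) : ℕ) / L W + 1) else 0)) =
      (if 0 < (x : ℕ) ∧ (x : ℕ) ≤ L W * (W.N - 1) then
        m - k (y : ℕ) (((x : ℕ) - 1) / L W + 1) else 0) := by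
    by_cases h5 : 1 ≤ (x : ℕ)
    · rw [fin_pred x h5]
      by_cases h6 : (x : ℕ) ≤ L W * (W.N - 1)
      · rw [if_pos (by omega), if_pos (by omega), if_pos ⟨by omega, h6⟩]
      · rw [if_neg (by omega), if_neg (by omega), if_neg (by omega)]
    · have := fin_pred_zero x (by omega)
      rw [if_neg (by omega), if_neg (by omega), if_neg (by omega)]
  rw [hleft]
  have hdm := Nat.div_add_mod (x : ℕ) (L W)
  have hml := Nat.mod_lt (x : ℕ) hL
  set j := (x : ℕ) / L W with hj
  set i := (x : ℕ) % L W with hi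
  have hjN : j < W.N := Nat.div_lt_of_lt_mul hx
  have hzj := hz j
  by_cases hi0 : i = 0
  · have hdvd : L W ∣ (x : ℕ) := ⟨j, by omega⟩
    have hxj : (x : ℕ) = L W * j := by omega
    have hst := hstep (y : ℕ) j hy hjN
    have hc1 := hcap (y : ℕ) j hy hjN.le
    -- right gap
    have hr : (if (x : ℕ) < L W * (W.N - 1) then k (y : ℕ) (j + 1) else 0) = k (y : ℕ) (j + 1) := by
      by_cases h7 : j + 1 < W.N
      · rw [if_pos]
        rw [hxj]
        exact Nat.mul_lt_mul_of_pos_left (by omega) hL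
      · have h8 : j + 1 = W.N := by omega
        rw [h8, hf _ hy]
        split_ifs <;> rfl
    rw [hr]
    -- left gap
    have hl : (if 0 < (x : ℕ) ∧ (x : ℕ) ≤ L W * (W.N - 1) then
        m - k (y : ℕ) (((x : ℕ) - 1) / L W + 1) else 0) =
        (if 0 < (x : ℕ) ∧ (x : ℕ) ≤ L W * (W.N - 1) then m - k (y : ℕ) j else 0) := by
      split_ifs with h9
      · have h10 : 0 < j := by
          rcases Nat.eq_zero_or_pos j with h | h
          · rw [h] at hxj; omega
          · exact h
        have h11 : ((x : ℕ) - 1) / L W = j - 1 := by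
          rw [hxj]
          obtain ⟨j', hj'⟩ : ∃ j', j = j' + 1 := ⟨j - 1, by omega⟩
          rw [hj']
          have : L W * (j' + 1) - 1 = (L W - 1) + L W * j' := by
            have : L W * (j' + 1) = L W * j' + L W := by ring
            omega
          rw [this, Nat.add_mul_div_left _ _ hL, Nat.div_eq_of_lt (by omega)]
          omega
        rw [h11]
        congr 2
        omega
      · rfl
    rw [hl]
    have hxle : (x : ℕ) ≤ L W * (W.N - 1) := by
      rw [hxj]; exact Nat.mul_le_mul_left _ (by omega)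
    have hrr : rr W m (x, y) = (if 0 < (x : ℕ) ∧ (x : ℕ) ≤ L W * (W.N - 1) then m else 0) +
        W.c (y : ℕ) j := by
      unfold rr
      simp only
      rw [if_pos hdvd]
    rw [hrr]
    have hk0 : ¬ 0 < (x : ℕ) → k (y : ℕ) j = 0 := by
      intro h
      have : j = 0 := by
        rw [hj]; simp [show (x : ℕ) = 0 by omega]
      rw [this]; exact hs _ hy
    -- the legs
    have hleg : (if IsW W x y then z j else 0) +
        ((if L W ∣ (x : ℕ) ∧ W.kind j = Kind.wire ∧ (y : ℕ) = W.row j + 1 then 1 else 0) -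
          (if L W ∣ (x : ℕ) ∧ W.kind j = Kind.wire ∧ (y : ℕ) = W.row j + 1 then z j else 0)) +
        (if L W ∣ (x : ℕ) ∧ W.kind j = Kind.real ∧ W.row j = (y : ℕ) ∧ z j = 1 then 1 else 0)
        = W.take (z j) (y : ℕ) j := by
      have hIW : IsW W x y ↔ (W.kind j = Kind.wire ∧ W.row j = (y : ℕ)) :=
        ⟨fun h => h.2, fun h => ⟨hdvd, h⟩⟩
      simp only [hIW, hdvd, true_and]
      unfold Word.take
      cases hkd : W.kind j with
      | none => simp
      | real =>
        simp only [reduceCtorEq, false_and, if_false, true_and]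
        by_cases h12 : W.row j = (y : ℕ)
        · rw [if_pos h12.symm]
          split_ifs with h13
          · omega
          · have : z j ≠ 1 := fun h => h13 ⟨h12, h⟩
            omega
        · rw [if_neg (fun h => h12 h.1), if_neg (fun h => h12 h.symm)]
      | wire =>
        simp only [reduceCtorEq, false_and, if_false, true_and]
        by_cases h12 : W.row j = (y : ℕ)
        · rw [if_pos h12, if_neg (by omega), if_neg (by omega), if_pos h12.symm]
          omega
        · rw [if_neg h12, if_neg (show ¬ (y : ℕ) = W.row j from fun h => h12 h.symm)]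
          split_ifs with h13
          · omega
          · omega
    by_cases h14 : 0 < (x : ℕ)
    · have h16 : 0 < (x : ℕ) ∧ (x : ℕ) ≤ L W * (W.N - 1) := ⟨h14, hxle⟩
      rw [if_pos h16, if_pos h16]
      omega
    · have h15 := hk0 h14
      have h16 : ¬ (0 < (x : ℕ) ∧ (x : ℕ) ≤ L W * (W.N - 1)) := fun h => h14 h.1
      rw [if_neg h16, if_neg h16]
      omega
  · have hdvd : ¬ L W ∣ (x : ℕ) := fun h => hi0 (Nat.mod_eq_zero_of_dvd h)
    have hnW : ¬ IsW W x y := fun h => hdvd h.1
    have h1 : ((x : ℕ) - 1) / L W = j := by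
      have : (x : ℕ) - 1 = (i - 1) + L W * j := by omega
      rw [this, Nat.add_mul_div_left _ _ hL, Nat.div_eq_of_lt (by omega)]
      omega
    simp only [hnW, hdvd, false_and, if_false, h1]
    unfold rr
    simp only [hdvd, if_false]
    have hc := hcap (y : ℕ) (j + 1) hy (by omega)
    have hiff : (x : ℕ) < L W * (W.N - 1) ↔ (0 < (x : ℕ) ∧ (x : ℕ) ≤ L W * (W.N - 1)) := by
      constructor
      · intro h; omega
      · rintro ⟨h2, h3⟩
        rcases Nat.lt_or_ge (x : ℕ) (L W * (W.N - 1)) with h4 | h4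
        · exact h4
        · exact absurd ⟨W.N - 1, by omega⟩ hdvd
    by_cases h5 : (x : ℕ) < L W * (W.N - 1)
    · rw [if_pos h5, if_pos (hiff.1 h5), if_pos (hiff.1 h5)]
      omega
    · rw [if_neg h5, if_neg (fun h => h5 (hiff.2 h)), if_neg (fun h => h5 (hiff.2 h))]

lemma cj_mul (j : ℕ) : cj W (L W * j) = j := by
  have hL := L_pos W
  unfold cj
  rw [Nat.add_comm, Nat.add_mul_div_left _ _ hL, Nat.div_eq_of_lt (by omega)]
  omega

lemma cj_of {x j i : ℕ} (hx : x = L W * j + i) (h0 : 0 < i) (hi : i ≤ L W) :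
    cj W x = j + 1 := by
  have hL := L_pos W
  unfold cj
  have : x + (L W - 1) = (i - 1) + L W * (j + 1) := by
    have : L W * (j + 1) = L W * j + L W := by ring
    omega
  rw [this, Nat.add_mul_div_left _ _ hL, Nat.div_eq_of_lt (by omega)]
  omega

variable {S : Type}

/-- the spot data of a grid certificate -/
noncomputable def spotData (hW : W.WF) (m : ℕ) (X Y : ℕ → ℝ) (α β : S → ℝ)
    (y : S → ℕ → ℕ → ℝ) (k : S → ℕ → ℕ → ℕ) (z : S → ℕ → ℕ)
    (hX : ∀ j, X j = (L W : ℝ) * j + 1)
    (gc : GC W m X Y α β y k z) (ρ Ym : ℝ) (hρ : 0 < ρ) :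
    RNB.SpotData (fun e : E W => e.1) (head W) (tip W hW) (bpos W (fun j => ρ * (Y j + Ym)))
      (mult W m) S where
  t := fun s => !₂[α s, β s / ρ]
  Y := fun s v => y s (v.2 : ℕ) (cj W (v.1 : ℕ)) + (β s / ρ + β s * Ym - α s)
  k := fun s e => kk W (k s) (z s) e
  used := fun s => univ.filter (fun g : G W => z s (g.1 : ℕ) = 1)
  r := rr W m
  k_le := by
    rintro s ⟨v, b⟩
    cases b
    · rw [kk_h, mult_h]
      split_ifs with h
      · refine gc.cap s _ _ v.2.isLt ?_
        have h1 : (v.1 : ℕ) / L W < W.N := Nat.div_lt_of_lt_mul v.1.isLt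
        omega
      · exact le_refl _
    · rw [kk_v, mult_v]
      split_ifs with h
      · exact gc.bit s _
      · exact le_refl _
  mono := by
    rintro s s' ⟨v, b⟩ hk
    cases b
    · rw [kk_h, kk_h] at hk
      split_ifs at hk with h
      · have hh := head_h W h
        have hL := L_pos W
        have hdm := Nat.div_add_mod (v.1 : ℕ) (L W)
        have hml := Nat.mod_lt (v.1 : ℕ) hL
        have hj : (v.1 : ℕ) / L W + 1 < W.N :=
          Nat.add_lt_of_lt_sub (Nat.div_lt_of_lt_mul h)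
        have e1 : cj W (((head W (v, false)).1 : ℕ)) = (v.1 : ℕ) / L W + 1 := by
          rw [hh.1]
          exact cj_of W (j := (v.1 : ℕ) / L W) (i := (v.1 : ℕ) % L W + 1) (by omega) (by omega)
            (by omega)
        rw [e1, hh.2]
        by_cases hi : (v.1 : ℕ) % L W = 0
        · have e2 : cj W (v.1 : ℕ) = (v.1 : ℕ) / L W := by
            have h3 := cj_mul W ((v.1 : ℕ) / L W)
            have h4 : L W * ((v.1 : ℕ) / L W) = (v.1 : ℕ) := by omega
            rw [h4] at h3
            exact h3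
          simp only
          rw [e2]
          have h5 : ¬ (y s (v.2 : ℕ) ((v.1 : ℕ) / L W) - y s (v.2 : ℕ) ((v.1 : ℕ) / L W + 1) <
              y s' (v.2 : ℕ) ((v.1 : ℕ) / L W) - y s' (v.2 : ℕ) ((v.1 : ℕ) / L W + 1)) := by
            intro h6
            have := gc.mono s s' (v.2 : ℕ) ((v.1 : ℕ) / L W) v.2.isLt hj h6
            omega
          linarith [not_lt.1 h5]
        · have e2 : cj W (v.1 : ℕ) = (v.1 : ℕ) / L W + 1 :=
            cj_of W (j := (v.1 : ℕ) / L W) (i := (v.1 : ℕ) % L W) (by omega) (by omega) (by omega)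
          simp only
          rw [e2]
          linarith
      · omega
    · rw [kk_v, kk_v] at hk
      split_ifs at hk with h
      · have hh := head_v W hW h
        obtain ⟨⟨j, hj⟩, hkd, hr⟩ := h
        rw [hj, Nat.mul_div_cancel_left _ (L_pos W)] at hkd hr
        have hjN : j < W.N := by
          have := v.1.isLt
          rw [hj] at this
          exact Nat.lt_of_mul_lt_mul_left this
        have e0 : cj W (v.1 : ℕ) = j := by rw [hj]; exact cj_mul W j
        simp only
        rw [hh.1, hh.2, e0, ← hr, ← gc.wire s j hjN hkd, ← gc.wire s' j hjN hkd]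
        linarith
      · omega
  leaf_used := by
    rintro s ⟨j, hj⟩ hg
    rw [mem_filter] at hg
    have h1 := gc.used s (j : ℕ) j.isLt hj hg.2
    have h2 : cj W (L W * (j : ℕ)) = (j : ℕ) := cj_mul W _
    simp only [tip]
    rw [h2]
    unfold bpos
    rw [hX] at h1
    simp only [PiLp.inner_apply, Fin.sum_univ_two]
    simp
    have h3 : β s / ρ * (1 + ρ * (Y (j : ℕ) + Ym)) = β s / ρ + β s * Ym + β s * Y (j : ℕ) := by
      field_simp; ring
    nlinarith [h3, h1]
  leaf_unused := by
    rintro s ⟨j, hj⟩ hg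
    have hz : z s (j : ℕ) = 0 := by
      have h0 := gc.bit s (j : ℕ)
      have h1 : z s (j : ℕ) ≠ 1 := by
        intro h
        exact hg (mem_filter.2 ⟨mem_univ _, h⟩)
      omega
    have h1 := gc.unused s (j : ℕ) j.isLt hj hz
    have h2 : cj W (L W * (j : ℕ)) = (j : ℕ) := cj_mul W _
    simp only [tip]
    rw [h2]
    unfold bpos
    rw [hX] at h1
    simp only [PiLp.inner_apply, Fin.sum_univ_two]
    simp
    have h3 : β s / ρ * (1 + ρ * (Y (j : ℕ) + Ym)) = β s / ρ + β s * Ym + β s * Y (j : ℕ) := by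
      field_simp; ring
    nlinarith [h3, h1]
  cons := by
    intro s v
    rw [tail_filter, head_filter]
    rw [sum_pair (by simp), sum_pair (by simp)]
    have hcard : ((univ.filter (fun g : G W => z s (g.1 : ℕ) = 1)).filter
        (fun g => tip W hW g = v)).card =
        (if L W ∣ (v.1 : ℕ) ∧ W.kind ((v.1 : ℕ) / L W) = Kind.real ∧
          W.row ((v.1 : ℕ) / L W) = (v.2 : ℕ) ∧ z s ((v.1 : ℕ) / L W) = 1 then 1 else 0) := by
      split_ifs with h
      · obtain ⟨⟨j, hj⟩, hkd, hr, hz⟩ := h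
        rw [hj, Nat.mul_div_cancel_left _ (L_pos W)] at hkd hr hz
        have hjN : j < W.N := by
          have := v.1.isLt
          rw [hj] at this
          exact Nat.lt_of_mul_lt_mul_left this
        rw [card_eq_one]
        refine ⟨⟨⟨j, hjN⟩, hkd⟩, ?_⟩
        ext ⟨g, hg⟩
        simp only [mem_filter, mem_univ, true_and, mem_singleton, Subtype.mk.injEq]
        constructor
        · rintro ⟨-, h2⟩
          have h3 : L W * (g : ℕ) = (v.1 : ℕ) := congrArg (fun v : V W => (v.1 : ℕ)) h2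
          rw [hj] at h3
          exact Fin.ext (Nat.eq_of_mul_eq_mul_left (L_pos W) h3)
        · rintro rfl
          refine ⟨hz, ?_⟩
          refine Prod.ext (Fin.ext ?_) (Fin.ext ?_)
          · simp only [tip]; exact hj.symm
          · simp only [tip]; exact hr
      · rw [card_eq_zero, filter_eq_empty_iff]
        rintro ⟨g, hg⟩ hmem h2
        rw [mem_filter] at hmem
        apply h
        subst h2
        simp only [tip]
        rw [Nat.mul_div_cancel_left _ (L_pos W)]
        exact ⟨⟨_, rfl⟩, hg, rfl, hmem.2⟩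
    rw [hcard]
    exact cons_aux W m (k s) (z s) hW (gc.bit s) (gc.start s) (gc.fin s)
      (fun r j hr hj => gc.cap s r j hr hj) (fun r j hr hj => gc.step s r j hr hj) v
  inj := by
    intro s s' h
    by_contra hne
    obtain ⟨j, hj, hkd, hz⟩ := gc.sep s s' hne
    have h1 := Finset.ext_iff.1 h ⟨⟨j, hj⟩, hkd⟩
    simp only [mem_filter, mem_univ, true_and] at h1
    have h2 := gc.bit s j
    have h3 := gc.bit s' j
    apply hz
    by_cases h4 : z s j = 1
    · rw [h4, h1.1 h4]
    · have h5 : z s' j ≠ 1 := fun h => h4 (h1.2 h)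
      omega

end Geom

end Pool.Agent.RN
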